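import Pool.Agent.Y245.SC.Stm4

set_option autoImplicit false

/-!
# Isolated singularities: trichotomy, entire functions
-/

open Complex MeasureTheory Metric Set Filter Topology ComplexConjugate
open Pool.Agent.Y245.SC

namespace Pool.Agent.Y953.ES

theorem tri : S_TRI := by
  classical
  intro c ρ X hρ hX
  by_cases hE : Ess c ρ X
  · exact Or.inl hE
  right
  have h1 : ∃ (m : ℕ) (K : ℝ), ∀ᶠ ω in 𝓝[≠] c, ‖X ω‖ * ‖ω - c‖ ^ m ≤ K := by
    by_contra hcon
    push Not at hcon
    refine hE ⟨hX, fun m K => ?_⟩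
    exact (hcon m K).mono fun ω h => by simpa using h
  obtain ⟨m, K, hmK⟩ := h1
  have hb : ball c ρ ∈ 𝓝 c := ball_mem_nhds c hρ
  set g : ℂ → ℂ := fun ω => (ω - c) ^ m * X ω with hgdef
  have hg : DifferentiableOn ℂ g (ball c ρ \ {c}) :=
    ((differentiableOn_id.sub_const c).pow m).mul hX
  have ho : (fun z => g z - g c) =o[𝓝[≠] c] fun z => (z - c)⁻¹ := by
    have hO : (fun z => g z - g c) =O[𝓝[≠] c] (fun _ => (1 : ℝ)) := by
      refine Asymptotics.IsBigO.of_bound (K + ‖g c‖) ?_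
      filter_upwards [hmK] with z hz
      have e1 : ‖g z‖ ≤ K := by
        rw [hgdef]
        simp only [norm_mul, norm_pow]
        rw [mul_comm]
        exact hz
      have e2 := norm_sub_le (g z) (g c)
      rw [norm_one, mul_one]
      linarith
    have ho1 : (fun _ : ℂ => (1 : ℝ)) =o[𝓝[≠] c] fun z => (z - c)⁻¹ := by
      rw [Asymptotics.isLittleO_one_left_iff]
      simp only [norm_inv]
      refine tendsto_inv_nhdsGT_zero.comp ?_
      refine tendsto_nhdsWithin_iff.2 ⟨?_, ?_⟩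
      · have : Tendsto (fun z : ℂ => ‖z - c‖) (𝓝 c) (𝓝 ‖c - c‖) :=
          (continuous_norm.comp (continuous_id.sub continuous_const)).tendsto c
        rw [sub_self, norm_zero] at this
        exact this.mono_left nhdsWithin_le_nhds
      · filter_upwards [self_mem_nhdsWithin] with z hz
        exact norm_pos_iff.2 (sub_ne_zero.2 hz)
    exact hO.trans_isLittleO ho1
  have hP : ∃ m : ℕ, ∃ E : ℂ → ℂ, DifferentiableOn ℂ E (ball c ρ) ∧
      ∀ ω ∈ ball c ρ, ω ≠ c → X ω = E ω / (ω - c) ^ m := by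
    refine ⟨m, _, differentiableOn_update_limUnder_of_isLittleO hb hg ho, fun ω _ hne => ?_⟩
    rw [Function.update_of_ne hne, hgdef]
    have h2 : (ω - c) ^ m ≠ 0 := pow_ne_zero _ (sub_ne_zero.2 hne)
    field_simp
  obtain ⟨E, hE1, hE2⟩ := Nat.find_spec hP
  refine ⟨Nat.find hP, E, hE1, ?_, hE2⟩
  rcases Nat.eq_zero_or_pos (Nat.find hP) with h0 | h0
  · exact Or.inl h0
  · right
    intro hEc
    refine Nat.find_min hP (m := Nat.find hP - 1) (by omega)
      ⟨dslope E c, (differentiableOn_dslope hb).2 hE1, fun ω hω hne => ?_⟩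
    rw [hE2 ω hω hne, dslope_of_ne _ hne, slope_def_field, hEc, sub_zero, div_div]
    congr 1
    rw [← pow_succ']
    congr 1
    omega

theorem const_of_bound {D : ℂ → ℂ} (hD : Differentiable ℂ D) {B : ℝ}
    (h : ∀ z, 1 ≤ ‖z‖ → ‖D z‖ ≤ B) : ∃ c, ∀ z, D z = c := by
  obtain ⟨B', hB'⟩ := (isCompact_closedBall (0 : ℂ) 1).exists_bound_of_continuousOn
    hD.continuous.continuousOn
  refine hD.exists_const_forall_eq_of_bounded ?_
  rw [isBounded_iff_forall_norm_le]
  refine ⟨max B B', ?_⟩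
  rintro _ ⟨z, rfl⟩
  rcases le_total 1 ‖z‖ with hz | hz
  · exact (h z hz).trans (le_max_left _ _)
  · exact (hB' z (mem_closedBall_zero_iff.2 hz)).trans (le_max_right _ _)

theorem ent : S_ENT := by
  intro φ hφ hnc
  set Φ : ℂ → ℂ := fun z => conj (φ (conj z)) with hΦdef
  have hΦ : Differentiable ℂ Φ := fun z => by
    have h := (hφ (conj z)).conj_conj
    rw [Complex.conj_conj] at h
    exact h
  have hX : ∀ w, conj (φ (1 / conj w)) = Φ (1 / w) := by
    intro w
    simp [hΦdef]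
  have hinv : DifferentiableOn ℂ (fun w : ℂ => 1 / w) (ball 0 2 \ {0}) := by
    intro w hw
    exact ((differentiableAt_const (1 : ℂ)).div differentiableAt_id
      (by simpa using hw.2)).differentiableWithinAt
  have hd : DifferentiableOn ℂ (fun w => conj (φ (1 / conj w))) (ball 0 2 \ {0}) := by
    simp only [hX]
    exact hΦ.comp_differentiableOn hinv
  rcases tri 0 2 _ two_pos hd with h | ⟨m, E, hE1, hE2, hE3⟩
  · exact Or.inl h
  right
  have hΦE : ∀ z : ℂ, 1 / 2 < ‖z‖ → Φ z = E (1 / z) * z ^ m := by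
    intro z hz
    have hz0 : z ≠ 0 := by
      rintro rfl
      rw [norm_zero] at hz
      linarith
    have h1 : (1 / z) ∈ ball (0 : ℂ) 2 := by
      rw [mem_ball_zero_iff, norm_div, norm_one, div_lt_iff₀ (norm_pos_iff.2 hz0)]
      linarith
    have h2 := hE3 (1 / z) h1 (by simpa using hz0)
    rw [hX, one_div_one_div, sub_zero] at h2
    rw [h2, div_pow, one_pow, div_div_eq_mul_div, div_one]
  obtain ⟨B, hB⟩ := (isCompact_closedBall (0 : ℂ) 1).exists_bound_of_continuousOn
    (hE1.continuousOn.mono (closedBall_subset_ball (by norm_num : (1 : ℝ) < 2)))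
  have hbd : ∀ z : ℂ, 1 ≤ ‖z‖ → ‖Φ z‖ ≤ B * ‖z‖ ^ m := by
    intro z hz
    rw [hΦE z (by linarith), norm_mul, norm_pow]
    refine mul_le_mul_of_nonneg_right (hB _ ?_) (by positivity)
    rw [mem_closedBall_zero_iff, norm_div, norm_one, div_le_iff₀ (by linarith)]
    linarith
  have hback : ∀ w, φ w = conj (Φ (conj w)) := by
    intro w
    simp [hΦdef]
  have hm : m ≠ 0 := by
    rintro rfl
    obtain ⟨c0, hc0⟩ := const_of_bound hΦ (B := B) fun z hz => by simpa using hbd z hz
    exact hnc ⟨conj c0, fun w => by rw [hback, hc0]⟩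
  refine ⟨m, E, Nat.one_le_iff_ne_zero.2 hm, hE1, hE2.resolve_left hm, hE3, ?_⟩
  rintro rfl
  have hD : Differentiable ℂ (dslope Φ 0) := by
    rw [← differentiableOn_univ]
    exact (differentiableOn_dslope univ_mem).2 hΦ.differentiableOn
  obtain ⟨q, hq⟩ := const_of_bound hD (B := B + ‖Φ 0‖) fun z hz => by
    have hz0 : z ≠ 0 := by
      rintro rfl
      rw [norm_zero] at hz
      linarith
    have hzp : 0 < ‖z‖ := by linarith
    rw [dslope_of_ne _ hz0, slope_def_field, sub_zero, norm_div, div_le_iff₀ hzp]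
    have e1 := norm_sub_le (Φ z) (Φ 0)
    have e2 := hbd z hz
    rw [pow_one] at e2
    have e3 : ‖Φ 0‖ ≤ ‖Φ 0‖ * ‖z‖ := le_mul_of_one_le_right (norm_nonneg _) hz
    nlinarith
  have hlin : ∀ z, Φ z = Φ 0 + q * z := by
    intro z
    by_cases hz0 : z = 0
    · rw [hz0, mul_zero, add_zero]
    · have h1 := hq z
      rw [dslope_of_ne _ hz0, slope_def_field, sub_zero, div_eq_iff hz0] at h1
      rw [← h1]
      ring
  refine ⟨conj (Φ 0), conj q, ?_, fun w => ?_⟩
  · intro hq0
    have hq1 : q = 0 := by simpa using hq0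
    refine hnc ⟨conj (Φ 0), fun w => ?_⟩
    rw [hback, hlin, hq1, zero_mul, add_zero]
  · rw [hback w, hlin (conj w), map_add, map_mul, Complex.conj_conj w]

end Pool.Agent.Y953.ES
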